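import Pool.Agent.Y879.AP.Phi
import Pool.Agent.Y879.GL.Pattern

set_option autoImplicit false

/-!
The exponential law for least almost primes in arithmetic progressions, for EVERY modulus: for every
large `d` the number of the integers `a + d, a + 2 d, ..., a + T d` without prime factor up to
`d ^ (1 / r)` is Poisson distributed when `a` runs through the reduced residue classes modulo `d`
(or through the reduced classes in a shorter interval), the mean being
`T V ~ r e ^ (-γ) T d / (φ(d) log d)`.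
-/

namespace Pool.Agent.Results.MP_458f0b_nt.LeastAlmostPrimeLaw

open Finset Filter

/-- `n` has no prime factor `p ≤ d ^ (1 / r)` -/
def Rough (d r n : ℕ) : Prop :=
  ∀ p : ℕ, p.Prime → (p : ℝ) ≤ (d : ℝ) ^ (1 / (r : ℝ)) → ¬ p ∣ n

/-- the product of `1 - 1 / p` over the primes `p ≤ d ^ (1 / r)` not dividing `d` -/
noncomputable def V (d r : ℕ) : ℝ :=
  ∏ p ∈ ((Icc 1 ⌊(d : ℝ) ^ (1 / (r : ℝ))⌋₊).filter Nat.Prime).filter (fun p => ¬ p ∣ d), (1 - 1 / (p : ℝ))

open Classical in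
/-- the number of the integers `a + d, a + 2 d, ..., a + T d` without prime factor up to `d ^ (1 / r)` -/
noncomputable def Num (d r T a : ℕ) : ℕ := ((Icc 1 T).filter (fun h => Rough d r (a + d * h))).card

lemma rough_iff (d r n : ℕ) : Rough d r n ↔
    ∀ p ∈ Pool.Agent.H373R2.T7.pz ⌊(d : ℝ) ^ (1 / (r : ℝ))⌋₊, ¬ p ∣ n := by
  unfold Rough
  constructor
  · intro h p hp
    obtain ⟨hp1, hp2⟩ := Pool.Agent.H373R2.T7.mem_pz.1 hp
    exact h p hp2 ((Nat.le_floor_iff (by positivity)).1 hp1)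
  · intro h p hp hpr
    exact h p (Pool.Agent.H373R2.T7.mem_pz.2 ⟨Nat.le_floor hpr, hp⟩)

lemma V_eq (d r : ℕ) : V d r = Pool.Agent.W123.RP.Vq
    (Pool.Agent.Y879.AP.Qn Pool.Agent.Y879.AP.Ql d) ⌊(d : ℝ) ^ (1 / (r : ℝ))⌋₊ := by
  rw [Pool.Agent.Y879.AP.Vn_eq]
  rfl

lemma Num_eq (d r T a : ℕ) : Num d r T a =
    Pool.Agent.Y879.AP.Wr d ⌊(d : ℝ) ^ (1 / (r : ℝ))⌋₊ T a := by
  unfold Num Pool.Agent.Y879.AP.Wr
  exact Pool.Agent.Y879.AP.card_iff _ _ (fun h _ => rough_iff d r (a + d * h))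

/-- **The exponential law for least almost primes, for every modulus.** For all `θ, ε > 0` and `x₀`
there is `r₀` such that for all `r ≥ r₀` there is `d₀` such that for EVERY modulus `d ≥ d₀`:
(1) the integers `0 < n ≤ d ^ 2` without prime factor up to `d ^ (1 / r)` have at most `2 r` prime
factors; (2) `V φ(d) log d / d` is `r e ^ (-γ)` up to `ε`; (3) in every interval `(u, u + Y]` with
`Y ≥ d ^ θ`, for all `T` with `T V ≤ x₀` and all finite sets `A` of natural numbers, the number of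
the `a` coprime to `d` for which the number of almost primes among `a + d, a + 2 d, ..., a + T d`
lies in `A` is `Y φ(d) / d (∑ j ∈ A, e ^ (-T V) (T V) ^ j / j! + δ)` with `|δ| ≤ ε`. -/
theorem result (θ x₀ ε : ℝ) (hθ : 0 < θ) (hε : 0 < ε) :
    ∃ r₀ : ℕ, ∀ r : ℕ, r₀ ≤ r → ∃ d₀ : ℕ, ∀ d : ℕ, d₀ ≤ d →
      (∀ n : ℕ, 0 < n → n ≤ d ^ 2 → Rough d r n → n.primeFactorsList.length ≤ 2 * r) ∧
      |V d r * ((d.totient : ℝ) / d) * Real.log d - r * Real.exp (-Real.eulerMascheroniConstant)| ≤ ε ∧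
      ∀ u Y T : ℕ, (d : ℝ) ^ θ ≤ Y → T * V d r ≤ x₀ → ∀ A : Finset ℕ,
        |(((Ioc u (u + Y)).filter (fun a => a.Coprime d ∧ Num d r T a ∈ A)).card : ℝ) -
          Y * ((d.totient : ℝ) / d) *
            ∑ j ∈ A, Real.exp (-(T * V d r)) * (T * V d r) ^ j / j.factorial| ≤
          ε * (Y * ((d.totient : ℝ) / d)) := by
  obtain ⟨r0, hr02, hlaw⟩ := Pool.Agent.Y879.AP.phi_law θ x₀ ε hθ hε
  refine ⟨r0, ?_⟩
  intro r hr
  have hr2 : 2 ≤ r := hr02.trans hr
  obtain ⟨N0, hN0⟩ := eventually_atTop.1 ((hlaw r hr).and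
    ((Pool.Agent.Y879.AP.mean_asym r hr2 ε hε).and (Pool.Agent.Y879.GL.level_ok r hr2)))
  refine ⟨max N0 1, ?_⟩
  intro d hd
  obtain ⟨h1, h2, h3⟩ := hN0 d ((le_max_left _ _).trans hd)
  have hd1 : 1 ≤ d := (le_max_right _ _).trans hd
  have hd0 : (0 : ℝ) < d := by exact_mod_cast hd1
  refine ⟨?_, ?_, ?_⟩
  · intro n hn hnd hrough
    have hz3 : (3 : ℝ) ≤ (d : ℝ) ^ (1 / (r : ℝ)) := by
      have h4 : ((3 : ℕ) : ℝ) ≤ (d : ℝ) ^ (1 / (r : ℝ)) :=
        (Nat.le_floor_iff (by positivity)).1 h3.1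
      exact_mod_cast h4
    refine Pool.Agent.Y879.GL.few_of_rough ((d : ℝ) ^ (1 / (r : ℝ))) (by linarith) n (2 * r)
      (by omega) ?_ ?_
    · have hrne : (r : ℝ) ≠ 0 := by
        have : (2 : ℝ) ≤ r := by exact_mod_cast hr2
        linarith
      have h7 : ((d : ℝ) ^ (1 / (r : ℝ))) ^ (2 * r) = (d : ℝ) ^ 2 := by
        rw [← Real.rpow_natCast ((d : ℝ) ^ (1 / (r : ℝ))), ← Real.rpow_mul hd0.le,
          ← Real.rpow_natCast]
        congr 1
        push_cast
        field_simp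
      rw [h7]
      exact_mod_cast hnd
    · intro q hq hqn
      by_contra hcon
      rw [not_lt] at hcon
      exact hrough q hq hcon hqn
  · rw [V_eq]
    exact h2
  · intro u Y T hY hT A
    rw [V_eq] at hT ⊢
    have h4 := h1 u Y hY T hT A
    simp only [Num_eq]
    convert h4

end Pool.Agent.Results.MP_458f0b_nt.LeastAlmostPrimeLaw
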