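import Pool.Agent.Y816.PD.UniB

set_option autoImplicit false

/-!
# Simultaneous almost primes with restricted digits in several classes modulo `d`

For every large modulus `d` and every set `B` of at most `k` integers `s ≤ d ^ D` such that no prime divides
`∏ (s + d j)` for all `j`, the numbers `s + d j`, `s ∈ B`, `j < b ^ K ≤ d ^ (1 / D)`, are considered, where the
`i`-th digit of `j` in base `b` belongs to an arbitrary set `A i` for all `i < K`; `K` is the integer part of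
`log d / (D log b)`.
-/

namespace Pool.Agent.Results.MP_458f0b_nt.RestrictedDigits

open Finset Filter
open Pool.Agent.Y816.PD (NA ND AB GB WG)

/-- **Simultaneous almost primes with restricted digits in several classes modulo `d`.** -/
theorem result (k : ℕ) (hk : 1 ≤ k) (D : ℕ) (hD : 1 ≤ D) :
    ∃ c : ℝ, 0 < c ∧ ∃ r₀ : ℕ, 2 ≤ r₀ ∧ ∀ r : ℕ, r₀ ≤ r → ∀ b : ℕ, 2 ≤ b → ∃ κ C : ℝ, 0 < κ ∧ 0 < C ∧
      ∀ᶠ d : ℕ in atTop, ∀ B : Finset ℕ, B.card ≤ k → (∀ s ∈ B, s ≤ d ^ D) →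
        (∀ p : ℕ, p.Prime → ∃ j : ℕ, ∀ s ∈ B, ¬ p ∣ s + d * j) → ∀ K : ℕ, K = Nat.log (b ^ D) d →
        ∀ A : ℕ → Finset ℕ, (∀ i < K, A i ⊆ range b) → (b : ℝ) ^ K ≤ Real.exp (c * K) * NA K A →
        ((∃ e ∈ A 0, ∀ s ∈ B, (s + d * e).Coprime b) →
          κ * NA K A * WG (GB d B) (b ^ K) ≤ ND b K A {j | j ^ D < d ∧ j ∈ AB d B r (b ^ K)}) ∧
        (ND b K A {j | ∀ s ∈ B, (s + d * j).Prime} : ℝ) ≤ C * NA K A * WG (GB d B) (b ^ K) := by
  obtain ⟨c, hc, r₀, hr₀, h⟩ := Pool.Agent.Y816.PD.uni_apB k hk (2 * D * D)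
  refine ⟨c, hc, r₀, hr₀, fun r hr b hb => ?_⟩
  obtain ⟨κ, C, hκ, hC, h1⟩ := h r hr b hb
  refine ⟨κ, C, hκ, hC, ?_⟩
  obtain ⟨K0, hK0⟩ := eventually_atTop.1 h1
  have hb0 : 0 < b := by omega
  have hbD : 1 < b ^ D := Nat.one_lt_pow (by omega) (by omega)
  filter_upwards [eventually_ge_atTop ((b ^ D) ^ (K0 + 1))] with m hm B hBk hBb hadm K hK A hA hprod
  have hm1 : 1 ≤ m := le_trans (Nat.one_le_pow _ _ (by positivity)) hm
  have hKK : K0 + 1 ≤ K := by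
    rw [hK]
    exact Nat.le_log_of_pow_le hbD hm
  have hb1 : (b ^ D) ^ K ≤ m := by
    rw [hK]
    exact Nat.pow_log_le_self _ (by omega)
  have hb2 : m < (b ^ D) ^ (K + 1) := by
    rw [hK]
    exact Nat.lt_pow_succ_log_self hbD _
  have e1 : m ≤ b ^ (2 * D * K) := by
    calc m ≤ (b ^ D) ^ (K + 1) := hb2.le
      _ = b ^ (D * (K + 1)) := (pow_mul b D (K + 1)).symm
      _ ≤ b ^ (2 * D * K) := Nat.pow_le_pow_right hb0 (by nlinarith)
  have e2 : m ≤ b ^ (2 * D * D * K) := e1.trans (Nat.pow_le_pow_right hb0 (by nlinarith [Nat.mul_le_mul_left (2 * D * K) hD]))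
  have e3 : ∀ s ∈ B, s ≤ b ^ (2 * D * D * K) := by
    intro s hs
    calc s ≤ m ^ D := hBb s hs
      _ ≤ (b ^ (2 * D * K)) ^ D := Nat.pow_le_pow_left e1 D
      _ = b ^ (2 * D * D * K) := by rw [← pow_mul]; congr 1; ring
  obtain ⟨h2, h3⟩ := hK0 K (by omega) m B hm1 e2 hBk e3 hadm A hA hprod
  refine ⟨fun hd => (h2 hd).trans (Nat.cast_le.2 ?_), h3⟩
  apply Pool.Agent.Y816.PD.ND_mono'
  intro j hj hjS
  refine ⟨?_, hjS⟩
  calc j ^ D < (b ^ K) ^ D := Nat.pow_lt_pow_left hj (by omega)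
    _ = (b ^ D) ^ K := by rw [← pow_mul, ← pow_mul, mul_comm]
    _ ≤ m := hb1

end Pool.Agent.Results.MP_458f0b_nt.RestrictedDigits
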